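import Mathlib

/-!
MP_28dfab_co, Q1: a poset with eight elements that contains no induced copy of `P₆` and is not
`d`-decomposable.

The poset has the strict comparabilities `3 < 4`, `3 < 5`, `3 < 6`, `2 < 6`, `2 < 7`, `0 < 7`,
`1 < 7`. Its comparability graph is a tree, so the only partition into two antichains has two parts
of size `4`, but `{0, 1, 2, 4, 5}` is an antichain with five elements.
-/

set_option autoImplicit false

namespace Pool.Agent.Results.MP_28dfab_co.EightPoints

section defs

variable (P : Type) [Fintype P] [DecidableEq P] [PartialOrder P]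

/-- `S` is a `k`-antichain: a union of `k` pairwise disjoint antichains. -/
def IsKAntichain (k : ℕ) (S : Finset P) : Prop :=
  ∃ A : Fin k → Finset P, (∀ i, IsAntichain (· ≤ ·) (A i : Set P)) ∧
    (∀ i j, i ≠ j → Disjoint (A i) (A j)) ∧ Finset.univ.biUnion A = S

/-- `d_k(P)`, the largest size of a `k`-antichain. -/
noncomputable def d (k : ℕ) : ℕ := sSup {m | ∃ S : Finset P, IsKAntichain P k S ∧ S.card = m}

/-- The height of `P`, the largest size of a chain. -/
noncomputable def height : ℕ :=
  sSup {m | ∃ C : Finset P, IsChain (· ≤ ·) (C : Set P) ∧ C.card = m}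

/-- `P` has a partition into antichains `A_1, …, A_h`, `h` the height of `P`, such that
`|A_1 ∪ … ∪ A_k| = d_k(P)` for `k = 1, …, h`. -/
def DDecomposable : Prop :=
  ∃ A : Fin (height P) → Finset P, (∀ i, IsAntichain (· ≤ ·) (A i : Set P)) ∧
    (∀ i j, i ≠ j → Disjoint (A i) (A j)) ∧ Finset.univ.biUnion A = Finset.univ ∧
    ∀ k, 1 ≤ k → k ≤ height P →
      ((Finset.univ.filter (fun i : Fin (height P) => i.val < k)).biUnion A).card = d P k

/-- The strict order of `P₆`, with `x₁, x₂, x₃, y₁, y₂, y₃` numbered `0, 1, 2, 3, 4, 5`. -/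
def ltP6 (a b : Fin 6) : Prop := (a < 3 ∧ b = 4) ∨ (a = 1 ∧ 3 ≤ b)

/-- `P` contains `P₆` as an induced subposet. -/
def ContainsP6 : Prop :=
  ∃ f : Fin 6 → P, Function.Injective f ∧ ∀ a b, f a < f b ↔ ltP6 a b

end defs

/-- The ground set of the example. -/
inductive Q
  | q0 | q1 | q2 | q3 | q4 | q5 | q6 | q7
  deriving DecidableEq

open Q

instance : Fintype Q := ⟨{q0, q1, q2, q3, q4, q5, q6, q7}, by intro x; cases x <;> decide⟩

/-- The strict order of the example. -/
def r : Q → Q → Bool
  | q3, q4 => true
  | q3, q5 => true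
  | q3, q6 => true
  | q2, q6 => true
  | q2, q7 => true
  | q0, q7 => true
  | q1, q7 => true
  | _, _ => false

instance : PartialOrder Q where
  le a b := a = b ∨ r a b = true
  lt a b := r a b = true
  le_refl a := Or.inl rfl
  le_trans := by decide
  lt_iff_le_not_ge := by decide
  le_antisymm := by decide

theorem no_three : ∀ a b c : Q, r a b = true → r b c = true → False := by decide

theorem chain_card (C : Finset Q) (hC : IsChain (· ≤ ·) (C : Set Q)) : C.card ≤ 2 := by
  by_contra hlt
  push Not at hlt
  obtain ⟨a, b, c, ha, hb, hc, hab, hac, hbc⟩ := Finset.two_lt_card_iff.1 hlt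
  have comp : ∀ x ∈ C, ∀ y ∈ C, x ≠ y → r x y = true ∨ r y x = true := by
    intro x hx y hy hxy
    rcases hC hx hy hxy with h | h
    · rcases h with h | h
      · exact absurd h hxy
      · exact Or.inl h
    · rcases h with h | h
      · exact absurd h.symm hxy
      · exact Or.inr h
  rcases comp a ha b hb hab with h1 | h1 <;> rcases comp b hb c hc hbc with h2 | h2 <;>
    rcases comp a ha c hc hac with h3 | h3
  · exact no_three _ _ _ h1 h2
  · exact no_three _ _ _ h1 h2
  · exact no_three _ _ _ h3 h2
  · exact no_three _ _ _ h3 h1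
  · exact no_three _ _ _ h1 h3
  · exact no_three _ _ _ h2 h3
  · exact no_three _ _ _ h2 h1
  · exact no_three _ _ _ h2 h1

theorem height_le : height Q ≤ 2 := by
  apply csSup_le'
  rintro m ⟨C, hC, rfl⟩
  exact chain_card C hC

theorem height_pos : 1 ≤ height Q := by
  apply le_csSup
  · refine ⟨2, ?_⟩
    rintro m ⟨C, hC, rfl⟩
    exact chain_card C hC
  · exact ⟨{q0}, by
      rw [Finset.coe_singleton]
      exact IsChain.singleton, rfl⟩

/-- the antichain with five elements -/
def five : Finset Q := {q0, q1, q2, q4, q5}

theorem five_card : five.card = 5 := by decide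

theorem five_antichain : IsAntichain (· ≤ ·) (five : Set Q) := by
  have : ∀ a b : Q, a ∈ five → b ∈ five → a ≠ b → ¬ (a = b ∨ r a b = true) := by decide
  intro a ha b hb hab h
  exact this a b ha hb hab h

theorem five_le_d : 5 ≤ d Q 1 := by
  apply le_csSup
  · refine ⟨Fintype.card Q, ?_⟩
    rintro m ⟨S, _, rfl⟩
    exact Finset.card_le_univ S
  · refine ⟨five, ⟨fun _ => five, fun _ => five_antichain, ?_, ?_⟩, five_card⟩
    · intro i j hij
      exact absurd (Subsingleton.elim i j) hij
    · ext x
      simp

theorem not_containsP6 : ¬ ContainsP6 Q := by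
  rintro ⟨f, hf, hlt⟩
  have h1 : ∀ y a b c : Q, r a y = true → r b y = true → r c y = true →
      a ≠ b → a ≠ c → b ≠ c → y = q7 := by decide
  have h2 : ∀ y a b c : Q, r y a = true → r y b = true → r y c = true →
      a ≠ b → a ≠ c → b ≠ c → y = q3 := by decide
  have e1 : r (f 0) (f 4) = true := (hlt 0 4).2 (by unfold ltP6; decide)
  have e2 : r (f 1) (f 4) = true := (hlt 1 4).2 (by unfold ltP6; decide)
  have e3 : r (f 2) (f 4) = true := (hlt 2 4).2 (by unfold ltP6; decide)
  have e4 : r (f 1) (f 3) = true := (hlt 1 3).2 (by unfold ltP6; decide)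
  have e5 : r (f 1) (f 5) = true := (hlt 1 5).2 (by unfold ltP6; decide)
  have h4 : f 4 = q7 := h1 (f 4) (f 0) (f 1) (f 2) e1 e2 e3
    (fun h => by have := hf h; revert this; decide)
    (fun h => by have := hf h; revert this; decide)
    (fun h => by have := hf h; revert this; decide)
  have h5 : f 1 = q3 := h2 (f 1) (f 3) (f 4) (f 5) e4 e2 e5
    (fun h => by have := hf h; revert this; decide)
    (fun h => by have := hf h; revert this; decide)
    (fun h => by have := hf h; revert this; decide)
  rw [h4, h5] at e2
  exact absurd e2 (by decide)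

theorem not_dDecomposable : ¬ DDecomposable Q := by
  rintro ⟨A, hanti, _, hun, hcard⟩
  have hh1 := height_pos
  have hh2 := height_le
  have h1 := hcard 1 le_rfl hh1
  set i0 : Fin (height Q) := ⟨0, hh1⟩ with hi0
  have hfil : (Finset.univ.filter (fun i : Fin (height Q) => i.val < 1)).biUnion A = A i0 := by
    have : Finset.univ.filter (fun i : Fin (height Q) => i.val < 1) = {i0} := by
      ext i
      simp only [Finset.mem_filter, Finset.mem_univ, true_and, Finset.mem_singleton, hi0,
        Fin.ext_iff]
      omega
    rw [this, Finset.singleton_biUnion]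
  rw [hfil] at h1
  have h5 : 5 ≤ (A i0).card := by rw [h1]; exact five_le_d
  -- colour classes
  have hcol : ∀ x : Q, x ∈ A i0 ∨ ∃ i, i ≠ i0 ∧ x ∈ A i := by
    intro x
    have hx : x ∈ Finset.univ.biUnion A := by rw [hun]; exact Finset.mem_univ x
    obtain ⟨i, _, hi⟩ := Finset.mem_biUnion.1 hx
    by_cases h : i = i0
    · left; rw [← h]; exact hi
    · exact Or.inr ⟨i, h, hi⟩
  -- comparable elements are in different classes
  have hdiff : ∀ x y : Q, r x y = true → (x ∈ A i0 → y ∉ A i0) ∧ (x ∉ A i0 → y ∈ A i0) := by
    intro x y hxy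
    have hne : x ≠ y := by
      rintro rfl
      have : ∀ x : Q, r x x = false := by decide
      rw [this x] at hxy
      exact Bool.false_ne_true hxy
    constructor
    · intro hx hy
      exact hanti i0 hx hy hne (Or.inr hxy)
    · intro hx
      by_contra hy
      rcases hcol x with h | ⟨i, hi, hxi⟩
      · exact hx h
      rcases hcol y with h | ⟨j, hj, hyj⟩
      · exact hy h
      have hij : i = j := by
        have h1 := i.isLt
        have h2 := j.isLt
        rw [hi0] at hi hj
        simp only [ne_eq, Fin.ext_iff] at hi hj ⊢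
        omega
      subst hij
      exact hanti i hxi hyj hne (Or.inr hxy)
  have d34 := hdiff q3 q4 (by decide)
  have d35 := hdiff q3 q5 (by decide)
  have d36 := hdiff q3 q6 (by decide)
  have d26 := hdiff q2 q6 (by decide)
  have d27 := hdiff q2 q7 (by decide)
  have d07 := hdiff q0 q7 (by decide)
  have d17 := hdiff q1 q7 (by decide)
  have hcases : A i0 ⊆ {q0, q1, q2, q3} ∨ A i0 ⊆ {q4, q5, q6, q7} := by
    by_cases h3 : q3 ∈ A i0
    · left
      have n4 := d34.1 h3
      have n5 := d35.1 h3
      have n6 := d36.1 h3
      have y2 : q2 ∈ A i0 := by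
        by_contra h
        exact n6 (d26.2 h)
      have n7 := d27.1 y2
      intro x hx
      cases x
      · decide
      · decide
      · decide
      · decide
      · exact absurd hx n4
      · exact absurd hx n5
      · exact absurd hx n6
      · exact absurd hx n7
    · right
      have y6 := d36.2 h3
      have n2 : q2 ∉ A i0 := fun h => d26.1 h y6
      have y7 := d27.2 n2
      have n0 : q0 ∉ A i0 := fun h => d07.1 h y7
      have n1 : q1 ∉ A i0 := fun h => d17.1 h y7
      intro x hx
      cases x
      · exact absurd hx n0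
      · exact absurd hx n1
      · exact absurd hx n2
      · exact absurd hx h3
      · decide
      · decide
      · decide
      · decide
  rcases hcases with h | h
  · have := Finset.card_le_card h
    have h4 : ({q0, q1, q2, q3} : Finset Q).card = 4 := by decide
    omega
  · have := Finset.card_le_card h
    have h4 : ({q4, q5, q6, q7} : Finset Q).card = 4 := by decide
    omega

/-- There is a finite poset, with eight elements, that contains no induced copy of `P₆` and is not
`d`-decomposable. -/
theorem result : ∃ (P : Type) (_ : Fintype P) (_ : DecidableEq P) (_ : PartialOrder P),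
    Fintype.card P = 8 ∧ ¬ ContainsP6 P ∧ ¬ DDecomposable P :=
  ⟨Q, inferInstance, inferInstance, inferInstance, rfl, not_containsP6, not_dDecomposable⟩

end Pool.Agent.Results.MP_28dfab_co.EightPoints
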